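import Pool.Agent.Helper144.L1.Signed
import Pool.Agent.Helper144.L1.C7

/-!
# Lower bounds for the chromatic number of the unit-distance graph of `ℓ_1^d`
-/

set_option autoImplicit false

namespace Pool.Agent.Results.MP_4e279d_co.LowerBoundPrimePower

open Pool.Agent.Helper144.L1

/-- Let the unit-distance graph of `ℓ_1^d` have a proper colouring with `n` colours. Then
`2 ^ (2 q - 1) * C(d, 2 q - 1) ≤ n * C(2 d, q - 1)` for every prime power `q = p ^ a` (including
`q = 1`), `3 d - 2 ≤ n` if `d ≥ 3`, and `8 ≤ n` if `d = 3`. -/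
theorem result (d n : ℕ) (hn : (unitGraph d).Colorable n) :
    (∀ p a : ℕ, p.Prime →
      2 ^ (2 * p ^ a - 1) * d.choose (2 * p ^ a - 1) ≤ n * (2 * d).choose (p ^ a - 1)) ∧
    (3 ≤ d → 3 * d - 2 ≤ n) ∧ (d = 3 → 8 ≤ n) := by
  refine ⟨fun p a hp => main_ineq hn p hp a, fun hd => bound_unitGraph hd hn, ?_⟩
  rintro rfl
  by_contra hlt
  exact not_colorable (k := 7) (by norm_num) C7.ok C7.edges_ok C7.basis_ok
    (SimpleGraph.Colorable.mono (by omega) hn)

end Pool.Agent.Results.MP_4e279d_co.LowerBoundPrimePower
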